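import Pool.Agent.Work.MP_95f31c_co.Geometry
import Pool.Agent.Work.MP_95f31c_co.BridgeB

/-! Magnitude homology of every real central hyperplane arrangement is torsion-free. -/

namespace Pool.Agent.Results.MP_95f31c_co.TorsionFree

open Pool.Agent.Work.MP_95f31c_co

/-- For every arrangement `A` of linear hyperplanes in `ℝ^d`: the tope graph is connected, the
boundaries of the magnitude complex are cycles, and every magnitude homology group
`MH_{k,l}(A)` is torsion-free. -/
theorem result (d : ℕ) (A : Arrangement d) :
    A.topeGraph.Connected ∧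
      ∀ k l : ℕ, boundaries A.topeGraph k l ≤ cycles A.topeGraph k l ∧
        ∀ (n : ℤ) (x : MH A.topeGraph k l), n ≠ 0 → n • x = 0 → x = 0 := by
  classical
  choose f hf using fun H : A.planes => exists_functional H.1 (A.codim_one H.1 H.2)
  obtain ⟨S, hS⟩ := exists_cellSystem f
  refine ⟨connected_of_cells f hf S hS, fun k l => ⟨boundaries_le_of_cells f hf S hS k l, ?_⟩⟩
  intro n x hn hx
  exact MH_tf_of_cells f hf S hS k l n x hn hx

end Pool.Agent.Results.MP_95f31c_co.TorsionFree
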